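import Pool.Agent.V11124.SeqCycle2
import Pool.Agent.V11124.MacroRing

open SimpleGraph Pool.Agent.V11124.MacroRing

namespace Pool.Agent.Results.MP_0ca78d_co.SparseEdgeProper

/-- the edge `e` lies in a cycle of `G` of length `l` -/
def InCycle {V : Type} (G : SimpleGraph V) (e : Sym2 V) (l : ℕ) : Prop :=
  ∃ (v : V) (w : G.Walk v v), w.IsCycle ∧ w.length = l ∧ e ∈ w.edges

/-- `G` is `k`-edge-proper -/
def EdgeProper {V : Type} [Fintype V] (G : SimpleGraph V) (k : ℕ) : Prop :=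
  ∀ e ∈ G.edgeSet, (∀ l, 3 ≤ l → l ≤ k → InCycle G e l) ∧ InCycle G e (Fintype.card V)

/-! ### list lemmas -/

theorem nodup_of_nodupB : ∀ L : List ℕ, nodupB L = true → L.Nodup := by
  intro L
  induction L with
  | nil => intro _; exact List.nodup_nil
  | cons a l ih =>
    intro h
    rw [nodupB, Bool.and_eq_true, List.all_eq_true] at h
    rw [List.nodup_cons]
    refine ⟨fun hmem => ?_, ih h.2⟩
    have := h.1 a hmem
    simp at this

theorem getD_mem (L : List ℕ) (i d : ℕ) (h : i < L.length) : L.getD i d ∈ L := by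
  rw [List.getD_eq_getElem _ _ h]
  exact List.getElem_mem h

theorem prs_mem (L : List ℕ) (i : ℕ) (h : i < L.length) :
    (L.getD i 0, L.getD ((i + 1) % L.length) 0) ∈ prs L := by
  unfold prs
  rw [List.mem_iff_getElem]
  have hl : i < (L.zip (L.rotate 1)).length := by simp [h]
  refine ⟨i, hl, ?_⟩
  have h2 : (i + 1) % L.length < L.length := Nat.mod_lt _ (by omega)
  rw [List.getElem_zip, List.getElem_rotate, List.getD_eq_getElem _ _ h, List.getD_eq_getElem _ _ h2]

theorem mem_prs (L : List ℕ) (p : ℕ × ℕ) (h : p ∈ prs L) :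
    ∃ i < L.length, L.getD i 0 = p.1 ∧ L.getD ((i + 1) % L.length) 0 = p.2 := by
  unfold prs at h
  rw [List.mem_iff_getElem] at h
  obtain ⟨i, hi, hp⟩ := h
  have h1 : i < L.length := by
    rw [List.length_zip, List.length_rotate] at hi
    omega
  have h2 : (i + 1) % L.length < L.length := Nat.mod_lt _ (by omega)
  rw [List.getElem_zip, List.getElem_rotate] at hp
  refine ⟨i, h1, ?_⟩
  rw [List.getD_eq_getElem _ _ h1, List.getD_eq_getElem _ _ h2, ← hp]
  exact ⟨rfl, rfl⟩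

theorem zip_tail_mem (L : List ℕ) (i : ℕ) (h : i + 1 < L.length) :
    (L.getD i 0, L.getD (i + 1) 0) ∈ L.zip L.tail := by
  rw [List.mem_iff_getElem]
  have hl : i < (L.zip L.tail).length := by
    rw [List.length_zip, List.length_tail]; omega
  refine ⟨i, hl, ?_⟩
  rw [List.getElem_zip, List.getElem_tail, List.getD_eq_getElem _ _ (by omega), List.getD_eq_getElem _ _ h]

theorem mem_zip_tail (L : List ℕ) (p : ℕ × ℕ) (h : p ∈ L.zip L.tail) :
    ∃ i, i + 1 < L.length ∧ L.getD i 0 = p.1 ∧ L.getD (i + 1) 0 = p.2 := by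
  rw [List.mem_iff_getElem] at h
  obtain ⟨i, hi, hp⟩ := h
  have h1 : i + 1 < L.length := by
    rw [List.length_zip, List.length_tail] at hi
    omega
  rw [List.getElem_zip, List.getElem_tail] at hp
  refine ⟨i, h1, ?_⟩
  rw [List.getD_eq_getElem _ _ (by omega), List.getD_eq_getElem _ _ h1, ← hp]
  exact ⟨rfl, rfl⟩

theorem nodup_getD {L : List ℕ} (h : L.Nodup) {i j : ℕ} (hi : i < L.length) (hj : j < L.length)
    (hij : L.getD i 0 = L.getD j 0) : i = j := by
  rw [List.getD_eq_getElem _ _ hi, List.getD_eq_getElem _ _ hj] at hij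
  exact (List.Nodup.getElem_inj_iff h).1 hij

/-! ### the ring of macros -/

variable (t : ℕ)

abbrev VT := ZMod t × Fin 26

variable {t}

/-- the `i`-th copy of the macro; its last vertex is the first one of the next copy -/
def phi (i : ZMod t) (u : ℕ) : VT t := if h : u < 26 then (i, ⟨u, h⟩) else (i + 1, 0)

theorem phi_inj (ht : 2 ≤ t) (i : ZMod t) {u v : ℕ} (hu : u < 27) (hv : v < 27) (h : phi i u = phi i v) : u = v := by
  have hne : i ≠ i + 1 := by
    intro h1
    have h2 : (1 : ZMod t) = 0 := by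
      have := congrArg (fun x => x - i) h1
      simpa using this.symm
    have : Fact (1 < t) := ⟨by omega⟩
    exact one_ne_zero h2
  unfold phi at h
  split_ifs at h with h1 h2 h2
  · simpa using h
  · rw [Prod.mk.injEq] at h; exact absurd h.1 hne
  · rw [Prod.mk.injEq] at h; exact absurd h.1.symm hne
  · omega

def ring (t : ℕ) (ht : 2 ≤ t) : SimpleGraph (VT t) where
  Adj x y := ∃ (i : ZMod t) (u v : ℕ), u < 27 ∧ v < 27 ∧ adjM u v = true ∧ x = phi i u ∧ y = phi i v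
  symm := ⟨fun x y ⟨i, u, v, hu, hv, h, hx, hy⟩ => ⟨i, v, u, hv, hu, by
    rw [← h]; exact adjM_symm ⟨v, hv⟩ ⟨u, hu⟩, hy, hx⟩⟩
  loopless := ⟨fun x ⟨i, u, v, hu, hv, h, hx, hy⟩ => by
    have := phi_inj ht i hu hv (hx.symm.trans hy)
    subst this
    rw [adjM_irrefl ⟨u, hu⟩] at h
    exact absurd h (by simp)⟩

theorem cycle_of_ok (ht : 2 ≤ t) (i : ZMod t) (l : ℕ) (hl : 3 ≤ l) (L : List ℕ) (hL : okCycle l L = true) :
    ∃ (v : VT t) (w : (ring t ht).Walk v v), w.IsCycle ∧ w.length = l ∧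
      ∀ p ∈ prs L, s(phi i p.1, phi i p.2) ∈ w.edges := by
  unfold okCycle at hL
  simp only [Bool.and_eq_true, beq_iff_eq] at hL
  obtain ⟨h1, h2, h3, h4⟩ := hL
  rw [List.all_eq_true] at h2 h4
  have hlt : ∀ j < l, L.getD j 0 < 27 := by
    intro j hj
    have := h2 _ (getD_mem L j 0 (by omega))
    simpa [Nat.blt_eq] using this
  have hnd := nodup_of_nodupB L h3
  obtain ⟨v, w, hw, hwl, hwe⟩ := Pool.Agent.V11124.SeqCycle.exists_cycle_mod (ring t ht) (fun j => phi i (L.getD j 0)) l hl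
    (by
      intro j hj
      have h5 := h4 _ (prs_mem L j (by omega))
      rw [h1] at h5
      exact ⟨i, _, _, hlt j hj, hlt _ (Nat.mod_lt _ (by omega)), h5, rfl, rfl⟩)
    (by
      intro a ha b hb hab
      have := phi_inj ht i (hlt a ha) (hlt b hb) hab
      exact nodup_getD hnd (by omega) (by omega) this)
  refine ⟨v, w, hw, hwl, fun p hp => ?_⟩
  obtain ⟨j, hj, hj1, hj2⟩ := mem_prs L p hp
  have := hwe j (by omega)
  rw [h1] at hj2
  simp only [hj1, hj2] at this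
  exact this

theorem okLen_all (l : ℕ) (h3 : 3 ≤ l) (h23 : l ≤ 23) : ∃ Ls, okLen l Ls = true := by
  interval_cases l
  exacts [⟨_, ok3⟩, ⟨_, ok4⟩, ⟨_, ok5⟩, ⟨_, ok6⟩, ⟨_, ok7⟩, ⟨_, ok8⟩, ⟨_, ok9⟩, ⟨_, ok10⟩, ⟨_, ok11⟩, ⟨_, ok12⟩,
    ⟨_, ok13⟩, ⟨_, ok14⟩, ⟨_, ok15⟩, ⟨_, ok16⟩, ⟨_, ok17⟩, ⟨_, ok18⟩, ⟨_, ok19⟩, ⟨_, ok20⟩, ⟨_, ok21⟩, ⟨_, ok22⟩,
    ⟨_, ok23⟩]

theorem usesB_spec {e : ℕ × ℕ} {ps : List (ℕ × ℕ)} (h : usesB e ps = true) :
    ∃ p ∈ ps, (p.1 = e.1 ∧ p.2 = e.2) ∨ (p.1 = e.2 ∧ p.2 = e.1) := by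
  unfold usesB at h
  rw [List.any_eq_true] at h
  obtain ⟨p, hp, h⟩ := h
  refine ⟨p, hp, ?_⟩
  simpa using h

theorem short_cycles (ht : 2 ≤ t) (i : ZMod t) (l : ℕ) (h3 : 3 ≤ l) (h23 : l ≤ 23) (e : ℕ × ℕ) (he : e ∈ edgesM) :
    InCycle (ring t ht) s(phi i e.1, phi i e.2) l := by
  obtain ⟨Ls, hLs⟩ := okLen_all l h3 h23
  unfold okLen at hLs
  rw [Bool.and_eq_true, List.all_eq_true, List.all_eq_true] at hLs
  have h1 := hLs.2 e he
  rw [List.any_eq_true] at h1
  obtain ⟨L, hL, hu⟩ := h1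
  obtain ⟨v, w, hw, hwl, hwe⟩ := cycle_of_ok ht i l h3 L (hLs.1 L hL)
  refine ⟨v, w, hw, hwl, ?_⟩
  obtain ⟨p, hp, h | h⟩ := usesB_spec hu
  · have := hwe p hp
    rwa [h.1, h.2] at this
  · have := hwe p hp
    rw [h.1, h.2, Sym2.eq_swap] at this
    exact this

structure HamList (L : List ℕ) : Prop where
  len : L.length = 27
  first : L.getD 0 0 = 0
  last : L.getD 26 0 = 26
  lt : ∀ j < 27, L.getD j 0 < 27
  nodup : L.Nodup
  adj : ∀ j < 26, adjM (L.getD j 0) (L.getD (j + 1) 0) = true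

theorem hamList_of_ok (L : List ℕ) (h : okHam L = true) : HamList L := by
  unfold okHam at h
  simp only [Bool.and_eq_true, beq_iff_eq] at h
  obtain ⟨h1, h2, h3, h4, h5, h6⟩ := h
  rw [List.all_eq_true] at h4 h6
  refine ⟨h1, ?_, h3, ?_, nodup_of_nodupB L h5, ?_⟩
  · rw [List.getD_eq_getElem _ _ (by omega)] at h2 ⊢
    exact h2
  · intro j hj
    have := h4 _ (getD_mem L j 0 (by omega))
    simpa [Nat.blt_eq] using this
  · intro j hj
    exact h6 _ (zip_tail_mem L j (by omega))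

/-- the Hamilton cycle through copies -/
theorem ham_cycle (ht : 2 ≤ t) (P : ZMod t → List ℕ) (hP : ∀ i, HamList (P i)) :
    ∃ (v : VT t) (w : (ring t ht).Walk v v), w.IsCycle ∧ w.length = 26 * t ∧
      ∀ (i : ZMod t) (r : ℕ), r < 26 → s(phi i ((P i).getD r 0), phi i ((P i).getD (r + 1) 0)) ∈ w.edges := by
  have hne : NeZero t := ⟨by omega⟩
  set f : ℕ → VT t := fun j => phi ((j / 26 : ℕ) : ZMod t) ((P ((j / 26 : ℕ) : ZMod t)).getD (j % 26) 0) with hf
  -- the successor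
  have hnext : ∀ j, f (j + 1) = phi ((j / 26 : ℕ) : ZMod t) ((P ((j / 26 : ℕ) : ZMod t)).getD (j % 26 + 1) 0) := by
    intro j
    rcases Nat.lt_or_ge (j % 26 + 1) 26 with h | h
    · have h1 : (j + 1) / 26 = j / 26 := by omega
      have h2 : (j + 1) % 26 = j % 26 + 1 := by omega
      simp only [hf, h1, h2]
    · have h1 : (j + 1) / 26 = j / 26 + 1 := by omega
      have h2 : (j + 1) % 26 = 0 := by omega
      have h3 : j % 26 + 1 = 26 := by omega
      simp only [hf, h1, h2, h3]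
      rw [(hP _).first, (hP _).last]
      simp [phi]
  have hper : f (26 * t) = f 0 := by
    simp only [hf]
    rw [Nat.mul_div_cancel_left _ (by norm_num), Nat.mul_mod_right]
    simp
  have hlt26 : ∀ i r, r < 26 → (P i).getD r 0 < 26 := by
    intro i r hr
    have h1 := (hP i).lt r (by omega)
    have h2 : (P i).getD r 0 ≠ 26 := by
      intro h
      have := nodup_getD (hP i).nodup (by rw [(hP i).len]; omega) (by rw [(hP i).len]; omega) (h.trans (hP i).last.symm)
      omega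
    omega
  obtain ⟨v, w, hw, hwl, hwe⟩ := Pool.Agent.V11124.SeqCycle.exists_cycle_mod (ring t ht) f (26 * t) (by omega)
    (by
      intro j hj
      have h1 : f ((j + 1) % (26 * t)) = f (j + 1) := by
        rcases Nat.lt_or_ge (j + 1) (26 * t) with h | h
        · rw [Nat.mod_eq_of_lt h]
        · have : j + 1 = 26 * t := by omega
          rw [this, Nat.mod_self, hper]
      rw [h1, hnext]
      have h2 : j % 26 < 26 := Nat.mod_lt _ (by norm_num)
      exact ⟨_, _, _, (hP _).lt _ (by omega), (hP _).lt _ (by omega), (hP _).adj _ h2, rfl, rfl⟩)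
    (by
      intro a ha b hb hab
      simp only [hf] at hab
      have ha2 : a % 26 < 26 := Nat.mod_lt _ (by norm_num)
      have hb2 : b % 26 < 26 := Nat.mod_lt _ (by norm_num)
      unfold phi at hab
      rw [dif_pos (hlt26 _ _ ha2), dif_pos (hlt26 _ _ hb2), Prod.mk.injEq, Fin.mk.injEq] at hab
      obtain ⟨h1, h2⟩ := hab
      have h3 : a / 26 < t := by omega
      have h4 : b / 26 < t := by omega
      have h5 : a / 26 = b / 26 := by
        have := congrArg ZMod.val h1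
        rwa [ZMod.val_natCast, ZMod.val_natCast, Nat.mod_eq_of_lt h3, Nat.mod_eq_of_lt h4] at this
      rw [h5] at h2
      have h6 := nodup_getD (hP _).nodup (by rw [(hP _).len]; omega) (by rw [(hP _).len]; omega) h2
      omega)
  refine ⟨v, w, hw, hwl, fun i r hr => ?_⟩
  have hj : 26 * i.val + r < 26 * t := by
    have := ZMod.val_lt i
    omega
  have h1 := hwe _ hj
  have h2 : f ((26 * i.val + r + 1) % (26 * t)) = f (26 * i.val + r + 1) := by
    rcases Nat.lt_or_ge (26 * i.val + r + 1) (26 * t) with h | h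
    · rw [Nat.mod_eq_of_lt h]
    · have : 26 * i.val + r + 1 = 26 * t := by omega
      rw [this, Nat.mod_self, hper]
  rw [h2, hnext] at h1
  have h3 : (26 * i.val + r) / 26 = i.val := by omega
  have h4 : (26 * i.val + r) % 26 = r := by omega
  simp only [hf, h3, h4, ZMod.natCast_zmod_val] at h1
  exact h1

theorem ham_through (ht : 2 ≤ t) (i : ZMod t) (e : ℕ × ℕ) (he : e ∈ edgesM) :
    InCycle (ring t ht) s(phi i e.1, phi i e.2) (26 * t) := by
  have h1 := ok_ham_cover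
  rw [List.all_eq_true] at h1
  have h2 := h1 e he
  rw [List.any_eq_true] at h2
  obtain ⟨L, hL, hu⟩ := h2
  have h3 := ok_ham
  rw [List.all_eq_true] at h3
  have hLham := hamList_of_ok L (h3 L hL)
  obtain ⟨v, w, hw, hwl, hwe⟩ := ham_cycle ht (fun _ => L) (fun _ => hLham)
  refine ⟨v, w, hw, hwl, ?_⟩
  obtain ⟨p, hp, h⟩ := usesB_spec hu
  obtain ⟨r, hr, hr1, hr2⟩ := mem_zip_tail L p hp
  rw [hLham.len] at hr
  have h5 := hwe i r (by omega)
  rw [hr1, hr2] at h5
  rcases h with h | h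
  · rwa [h.1, h.2] at h5
  · rw [h.1, h.2, Sym2.eq_swap] at h5
    exact h5

theorem edge_cases (ht : 2 ≤ t) (e : Sym2 (VT t)) (he : e ∈ (ring t ht).edgeSet) :
    ∃ (i : ZMod t) (p : ℕ × ℕ), p ∈ edgesM ∧ e = s(phi i p.1, phi i p.2) := by
  induction e using Sym2.ind with
  | _ x y =>
  obtain ⟨i, u, v, hu, hv, h, rfl, rfl⟩ := he
  rcases adjM_edges ⟨u, hu⟩ ⟨v, hv⟩ h with h1 | h1
  · exact ⟨i, (u, v), h1, rfl⟩
  · exact ⟨i, (v, u), h1, Sym2.eq_swap⟩

instance (t : ℕ) [NeZero t] : Fintype (VT t) := inferInstance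

theorem card_VT (t : ℕ) [NeZero t] : Fintype.card (VT t) = 26 * t := by
  rw [Fintype.card_prod, ZMod.card, Fintype.card_fin, mul_comm]

theorem ring_proper (ht : 2 ≤ t) [NeZero t] (k : ℕ) (hk : k ≤ 23) : EdgeProper (ring t ht) k := by
  intro e he
  obtain ⟨i, p, hp, rfl⟩ := edge_cases ht e he
  refine ⟨fun l h3 hl => short_cycles ht i l h3 (by omega) p hp, ?_⟩
  rw [card_VT]
  exact ham_through ht i p hp

theorem ring_edges (ht : 2 ≤ t) [NeZero t] : (ring t ht).edgeSet.ncard ≤ 51 * t := by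
  classical
  have hsub : (ring t ht).edgeSet ⊆
      (((Finset.univ : Finset (ZMod t × Fin 51)).image
        (fun q => s(phi q.1 (edgesM.getD q.2.1 (0, 0)).1, phi q.1 (edgesM.getD q.2.1 (0, 0)).2)) : Finset (Sym2 (VT t))) :
          Set (Sym2 (VT t))) := by
    intro e he
    obtain ⟨i, p, hp, rfl⟩ := edge_cases ht e he
    rw [List.mem_iff_getElem] at hp
    obtain ⟨j, hj, hjp⟩ := hp
    simp only [Finset.coe_image, Finset.coe_univ, Set.image_univ, Set.mem_range]
    refine ⟨(i, ⟨j, by rw [edgesM_length] at hj; exact hj⟩), ?_⟩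
    simp only
    rw [List.getD_eq_getElem _ _ hj, hjp]
  have h1 := Set.ncard_le_ncard hsub (Set.toFinite _)
  rw [Set.ncard_coe_finset] at h1
  refine h1.trans (Finset.card_image_le.trans ?_)
  rw [Finset.card_univ, Fintype.card_prod, ZMod.card, Fintype.card_fin, mul_comm]

/-- For every `k` with `16 ≤ k ≤ 23` there are arbitrarily large `n` and `k`-edge-proper graphs on
`n` vertices with fewer than `⌈(4k-9)n/(2k-4)⌉` edges. -/
theorem result : ∀ k : ℕ, 16 ≤ k → k ≤ 23 → ∀ n₀ : ℕ,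
    ∃ (V : Type) (_ : Fintype V) (G : SimpleGraph V), n₀ ≤ Fintype.card V ∧ EdgeProper G k ∧
      (G.edgeSet.ncard : ℤ) < ⌈((4 * (k : ℚ) - 9) * (Fintype.card V : ℚ)) / (2 * (k : ℚ) - 4)⌉ := by
  intro k h16 h23 n₀
  have hne : NeZero (n₀ + 2) := ⟨by omega⟩
  refine ⟨VT (n₀ + 2), inferInstance, ring (n₀ + 2) (by omega), ?_, ring_proper (by omega) k h23, ?_⟩
  · rw [card_VT]; omega
  · rw [Int.lt_ceil, card_VT]
    have h1 := ring_edges (t := n₀ + 2) (by omega)
    have h2 : ((ring (n₀ + 2) (by omega)).edgeSet.ncard : ℚ) ≤ 51 * ((n₀ + 2 : ℕ) : ℚ) := by exact_mod_cast h1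
    have hk : (16 : ℚ) ≤ k := by exact_mod_cast h16
    have ht : (0 : ℚ) < ((n₀ + 2 : ℕ) : ℚ) := by exact_mod_cast (by omega : 0 < n₀ + 2)
    rw [lt_div_iff₀ (by linarith)]
    push_cast at h2 ht ⊢
    nlinarith

end Pool.Agent.Results.MP_0ca78d_co.SparseEdgeProper
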